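import Pool.Agent.W8.KU.Stm

/-! Subtask KU-Der (owner helper8, MP_5bdae7_gt). -/

open scoped Topology ContDiff

set_option autoImplicit false

namespace Pool.Agent.W654.KU

open Pool.Agent.W8.KU

theorem hasDeriv_add (a p t : ℝ) (h : 0 < a + t) :
    HasDerivAt (fun t : ℝ => (a + t) ^ p) (p * (a + t) ^ (p - 1)) t := by
  have h1 : HasDerivAt (fun t : ℝ => a + t) 1 t := (hasDerivAt_id t).const_add a
  have h2 := h1.rpow_const (p := p) (Or.inl h.ne')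
  rw [one_mul] at h2
  exact h2

theorem hasDeriv_sub (a p t : ℝ) (h : 0 < a - t) :
    HasDerivAt (fun t : ℝ => (a - t) ^ p) (-(p * (a - t) ^ (p - 1))) t := by
  have h1 : HasDerivAt (fun t : ℝ => a - t) (-1) t := (hasDerivAt_id t).const_sub a
  have h2 := h1.rpow_const (p := p) (Or.inl h.ne')
  have e : -1 * p * (a - t) ^ (p - 1) = -(p * (a - t) ^ (p - 1)) := by ring
  rw [e] at h2
  exact h2

theorem cbr_sq (x : ℝ) (h : 0 < x) : cbr x ^ 2 = x ^ (2 / 3 : ℝ) := by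
  unfold cbr
  rw [← Real.rpow_natCast, ← Real.rpow_mul h.le]
  norm_num

theorem cbrt_val (a : ℝ) (ha : 0 < a) : (a ^ 3) ^ (2 / 3 - 1 : ℝ) = 1 / a := by
  rw [← Real.rpow_natCast, ← Real.rpow_mul ha.le]
  have e : ((3 : ℕ) : ℝ) * (2 / 3 - 1) = -1 := by norm_num
  rw [e, Real.rpow_neg_one, one_div]

theorem near : ∀ᶠ t in 𝓝 (0 : ℝ), |t| < 1 := by
  have := Metric.ball_mem_nhds (0 : ℝ) one_pos
  filter_upwards [this] with t ht
  simpa [Real.dist_eq] using ht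

theorem near_eq : (fun t => ra t ^ 2 + rb t ^ 2 + rc t ^ 2) =ᶠ[𝓝 0]
    fun t => (8 + t) ^ (2 / 3 : ℝ) + (216 - t) ^ (2 / 3 : ℝ) + (27 - t) ^ (2 / 3 : ℝ) := by
  filter_upwards [near] with t ht
  rw [abs_lt] at ht
  unfold ra rb rc
  rw [cbr_sq _ (by linarith), cbr_sq _ (by linarith), cbr_sq _ (by linarith)]

theorem deriv1 (t : ℝ) (ht : |t| < 1) :
    HasDerivAt (fun t : ℝ => (8 + t) ^ (2 / 3 : ℝ) + (216 - t) ^ (2 / 3 : ℝ) +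
      (27 - t) ^ (2 / 3 : ℝ))
      (2 / 3 * (8 + t) ^ (2 / 3 - 1 : ℝ) + -(2 / 3 * (216 - t) ^ (2 / 3 - 1 : ℝ)) +
        -(2 / 3 * (27 - t) ^ (2 / 3 - 1 : ℝ))) t := by
  rw [abs_lt] at ht
  exact ((hasDeriv_add 8 (2 / 3) t (by linarith)).add
    (hasDeriv_sub 216 (2 / 3) t (by linarith))).add (hasDeriv_sub 27 (2 / 3) t (by linarith))

theorem deriv2 : HasDerivAt (fun t : ℝ => 2 / 3 * (8 + t) ^ (2 / 3 - 1 : ℝ) +
      -(2 / 3 * (216 - t) ^ (2 / 3 - 1 : ℝ)) + -(2 / 3 * (27 - t) ^ (2 / 3 - 1 : ℝ)))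
      (2 / 3 * ((2 / 3 - 1) * (8 + 0) ^ (2 / 3 - 1 - 1 : ℝ)) +
        -(2 / 3 * (-((2 / 3 - 1) * (216 - 0) ^ (2 / 3 - 1 - 1 : ℝ)))) +
        -(2 / 3 * (-((2 / 3 - 1) * (27 - 0) ^ (2 / 3 - 1 - 1 : ℝ))))) 0 :=
  (((hasDeriv_add 8 (2 / 3 - 1) 0 (by norm_num)).const_mul (2 / 3)).add
    ((hasDeriv_sub 216 (2 / 3 - 1) 0 (by norm_num)).const_mul (2 / 3)).neg).add
    ((hasDeriv_sub 27 (2 / 3 - 1) 0 (by norm_num)).const_mul (2 / 3)).neg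

theorem smooth1 (a p : ℝ) (h : 0 < a) : ContDiffAt ℝ ∞ (fun t : ℝ => (a + t) ^ p) 0 := by
  refine ContDiffAt.rpow_const_of_ne (contDiffAt_const.add contDiffAt_id) ?_
  simpa using h.ne'

theorem smooth2 (a p : ℝ) (h : 0 < a) : ContDiffAt ℝ ∞ (fun t : ℝ => (a - t) ^ p) 0 := by
  refine ContDiffAt.rpow_const_of_ne (contDiffAt_const.sub contDiffAt_id) ?_
  simpa using h.ne'

/-- Subtask KU-Der. -/
theorem Der_proof : Der := by
  refine ⟨?_, ?_, ?_⟩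
  · refine ContDiffAt.congr_of_eventuallyEq ?_ near_eq
    exact ((smooth1 8 _ (by norm_num)).add (smooth2 216 _ (by norm_num))).add
      (smooth2 27 _ (by norm_num))
  · rw [near_eq.deriv_eq, (deriv1 0 (by norm_num)).deriv]
    have e1 : (8 + 0 : ℝ) ^ (2 / 3 - 1 : ℝ) = 1 / 2 := by
      rw [show (8 + 0 : ℝ) = 2 ^ 3 by norm_num]; exact cbrt_val 2 (by norm_num)
    have e2 : (216 - 0 : ℝ) ^ (2 / 3 - 1 : ℝ) = 1 / 6 := by
      rw [show (216 - 0 : ℝ) = 6 ^ 3 by norm_num]; exact cbrt_val 6 (by norm_num)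
    have e3 : (27 - 0 : ℝ) ^ (2 / 3 - 1 : ℝ) = 1 / 3 := by
      rw [show (27 - 0 : ℝ) = 3 ^ 3 by norm_num]; exact cbrt_val 3 (by norm_num)
    rw [e1, e2, e3]
    norm_num
  · have h1 : deriv (fun t => ra t ^ 2 + rb t ^ 2 + rc t ^ 2) =ᶠ[𝓝 0]
        fun t : ℝ => 2 / 3 * (8 + t) ^ (2 / 3 - 1 : ℝ) +
          -(2 / 3 * (216 - t) ^ (2 / 3 - 1 : ℝ)) + -(2 / 3 * (27 - t) ^ (2 / 3 - 1 : ℝ)) := by
      refine near_eq.deriv.trans ?_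
      filter_upwards [near] with t ht
      exact (deriv1 t ht).deriv
    rw [h1.deriv_eq, deriv2.deriv]
    have p1 : 0 < (8 + 0 : ℝ) ^ (2 / 3 - 1 - 1 : ℝ) := by positivity
    have p2 : 0 < (216 - 0 : ℝ) ^ (2 / 3 - 1 - 1 : ℝ) := Real.rpow_pos_of_pos (by norm_num) _
    have p3 : 0 < (27 - 0 : ℝ) ^ (2 / 3 - 1 - 1 : ℝ) := Real.rpow_pos_of_pos (by norm_num) _
    nlinarith

end Pool.Agent.W654.KU
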